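import Pool.Agent.H86.ZN.Link
import Pool.Agent.H86.Z1.Mid

/-!
# Project ZN: the links of the middle zone
-/

set_option autoImplicit false

namespace Pool.Agent.H92

open Finset Pool.Agent.H14RC Pool.Agent.H86.FM Pool.Agent.H86.Z1 Pool.Agent.H86.ZN

theorem mid_link {m : ℕ} (hm : 1000000 ≤ m) {t : ℕ} (h0 : (m : ℝ) / 4 + 5 ≤ t) (h1 : (t : ℝ) + 1 ≤ 3 * m / 4 - 5) :
    Link m ((t : ℝ) / m) (((t : ℝ) + 1) / m) 1 t ∧ F m ((t : ℝ) / m) = 1 := by
  have hm2 : 2 ≤ m := by omega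
  have hmR : (1000000 : ℝ) ≤ m := by exact_mod_cast hm
  have hmp : (0 : ℝ) < m := by linarith
  have key : ∀ y : ℝ, 0 ≤ y → y ≤ 1 → F m ((t : ℝ) / m + y / m) = 1 + F m y / m := by
    intro y hy0 hy1
    have e1 : (m : ℝ) * ((t : ℝ) / m + y / m) = y + ((t : ℤ) : ℝ) := by
      push_cast
      field_simp
      ring
    have h2 : 1 / 4 + 5 / (m : ℝ) ≤ (t : ℝ) / m + y / m := by
      have e : 1 / 4 + 5 / (m : ℝ) = ((m : ℝ) / 4 + 5) / m := by field_simp
      rw [e, ← add_div]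
      exact div_le_div_of_nonneg_right (by linarith) hmp.le
    have h3 : (t : ℝ) / m + y / m ≤ 3 / 4 - 5 / (m : ℝ) := by
      have e : 3 / 4 - 5 / (m : ℝ) = (3 * (m : ℝ) / 4 - 5) / m := by field_simp
      rw [e, ← add_div]
      exact div_le_div_of_nonneg_right (by linarith) hmp.le
    rw [mid hm h2 h3, e1, Ft_add_int, Ft_of_mem hm2 hy0 hy1]
  have hF0 : F m ((t : ℝ) / m) = 1 := by
    have h := key 0 le_rfl zero_le_one
    rw [F_zero hm2] at h
    simpa using h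
  refine ⟨⟨face_one hm2, ?_, ?_, ?_, ?_, ?_, ?_⟩, hF0⟩
  · have : (1 : ℝ) ≤ t := by linarith
    exact_mod_cast this
  · have : (t : ℝ) + 1 ≤ m := by linarith
    exact_mod_cast this
  · field_simp
  · field_simp
  · rw [hF0, F_one hm2]
    ring
  · intro y hy0 hy1
    rw [key y hy0 hy1, hF0]

end Pool.Agent.H92
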